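import Pool.Agent.helper80.VD.SpecG

/-!
# Row vd:GVL of MP_07c750_an (velocity and the covariant derivative)
-/

set_option autoImplicit false

open scoped ContDiff Topology InnerProductSpace
open MeasureTheory Filter Set

namespace Pool.Agent.VD

noncomputable section

/-- derivative of `vel` -/
theorem GVL_fvel {d : ℕ} (G : V d → V d →L[ℝ] V d) (hs : ContDiff ℝ ∞ (IG G)) (p q : P d) :
    fderiv ℝ (vel G) p q = fderiv ℝ (IG G) p.1 q.1 p.2 + IG G p.1 q.2 := by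
  have hd : HasFDerivAt (IG G) (fderiv ℝ (IG G) p.1) p.1 :=
    ((hs.differentiable (by simp)) p.1).hasFDerivAt
  have h1 : HasFDerivAt (fun y : P d => IG G y.1)
      ((fderiv ℝ (IG G) p.1).comp (ContinuousLinearMap.fst ℝ (V d) (V d))) p :=
    HasFDerivAt.comp (g := IG G) p (by simpa using hd) hasFDerivAt_fst
  have h2 : HasFDerivAt (fun y : P d => y.2) (ContinuousLinearMap.snd ℝ (V d) (V d)) p :=
    hasFDerivAt_snd
  have h3 := h1.clm_apply h2
  have h4 : HasFDerivAt (vel G) _ p := h3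
  rw [h4.fderiv]
  simp [add_comm]

theorem GVL_proof (hGIN : GIN_stmt) (hGXH : GXH_stmt) (hGCH : GCH_stmt) : GVL_stmt := by
  intro d G hG
  obtain ⟨i1, i2, i3, i4, i5⟩ := hGIN d G hG
  obtain ⟨x1, x2, x3, x4, x5, x6, x7⟩ := hGXH d G hG
  obtain ⟨c1, c2, c3, c4, c5, c6, c7, c8⟩ := hGCH d G hG
  have A1 : ∀ x u ξ, fderiv ℝ (IG G) x u ξ = -Chr G x u (IG G x ξ) - IG G x (ChT G x u ξ) := by
    intro x u ξ
    rw [i5]
    simp only [neg_apply, ContinuousLinearMap.comp_apply]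
    rw [c8, (i1 x ξ).2, map_add, (i1 x _).1]
    abel
  have A2 : ∀ p q : P d, fderiv ℝ (vel G) p q = IG G p.1 (Wc G p q) - Chr G p.1 (vel G p) q.1 := by
    intro p q
    rw [GVL_fvel G i4, A1]
    unfold Wc
    rw [map_sub, c1 p.1 (vel G p) q.1]
    unfold vel
    abel
  have A3 : ∀ p : P d, (XH G p).2 = ChT G p.1 (vel G p) p.2 := by
    intro p
    refine ext_inner_right ℝ fun w => ?_
    rw [x5, c6, A1]
    have e1 : ⟪IG G p.1 (ChT G p.1 w p.2), p.2⟫_ℝ = ⟪p.2, Chr G p.1 w (vel G p)⟫_ℝ := by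
      rw [i2, c6]
      rfl
    have e2 : ⟪Chr G p.1 w (IG G p.1 p.2), p.2⟫_ℝ = ⟪p.2, Chr G p.1 w (vel G p)⟫_ℝ := by
      rw [real_inner_comm]
      rfl
    rw [inner_sub_left, inner_neg_left, e1, e2, c1 p.1 (vel G p) w]
    ring
  have A4 : ∀ p : P d, Wc G p (XH G p) = 0 := by
    intro p
    unfold Wc
    rw [A3]
    exact sub_self _
  refine ⟨A1, A2, A3, fun p => ⟨A4 p, ?_⟩, ?_, ?_⟩
  · rw [A2, A4, map_zero, zero_sub]
    rfl
  · intro p q
    rw [x6, A3, c6]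
    unfold Wc
    rw [inner_sub_left, c6, real_inner_comm, c1 p.1 q.1 (vel G p)]
  · intro p q q'
    unfold omg Wc
    rw [inner_sub_left, inner_sub_left, c6, c6, c1 p.1 q'.1 q.1]
    ring

end

end Pool.Agent.VD
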