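import Pool.Agent.helper93.VD.SpecB4a

/-!
# Row vd:LNT of MP_07c750_an (separated sets)
-/

set_option autoImplicit false

open MeasureTheory Filter Set Topology
open scoped ENNReal

namespace Pool.Agent.VDL

open Pool.Agent.VDE (BB av)

noncomputable section

/-- the separation property -/
def LNT_sep {S X : Type} (d : S → S → ℝ) (f : ℝ → S → S) (T r : ℝ) (δ : X → S) (E : Set X) : Prop :=
  ∀ x ∈ E, ∀ y ∈ E, x ≠ y → ∃ s ∈ Icc (0 : ℝ) T, r < d (f s (δ x)) (f s (δ y))

theorem LNT_max {S X : Type} (d : S → S → ℝ) (f : ℝ → S → S) (T r : ℝ) (δ : X → S) (A : Set X) :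
    ∃ E : Set X, Maximal (· ∈ {E : Set X | E ⊆ A ∧ LNT_sep d f T r δ E}) E := by
  apply zorn_subset
  intro c hc hch
  refine ⟨⋃₀ c, ⟨sUnion_subset fun s hs => (hc hs).1, ?_⟩, fun s hs => subset_sUnion_of_mem hs⟩
  rintro x ⟨s, hs, hx⟩ x' ⟨s', hs', hx'⟩ hne
  rcases hch.total hs hs' with h | h
  · exact (hc hs').2 x (h hx) x' hx' hne
  · exact (hc hs).2 x hx x' (h hx') hne

theorem LNT_proof : LNT_stmt := by
  intro S X _ _ _ _ μ d f ε C hV
  constructor
  · intro T r δ A hr
    obtain ⟨E, hE⟩ := LNT_max d f T r δ A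
    obtain ⟨hEA, hsep⟩ := hE.prop
    refine ⟨E, hEA, ?_, hsep, ?_⟩
    · refine Set.PairwiseDisjoint.countable_of_isOpen
        (s := fun x => {y : S | ∀ s ∈ Icc (0 : ℝ) T, d (f s (δ x)) (f s y) < r / 2}) ?_ ?_ ?_
      · intro x hx x' hx' hne
        rw [Function.onFun, Set.disjoint_left]
        intro y hy hy'
        obtain ⟨s, hs, hlt⟩ := hsep x hx x' hx' hne
        have e1 := hy s hs
        have e2 := hy' s hs
        have e3 := hV.dt (f s (δ x)) (f s y) (f s (δ x'))
        have e4 := hV.ds (f s y) (f s (δ x'))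
        linarith
      · intro x _
        rw [isOpen_iff_mem_nhds]
        intro y hy
        refine IsCompact.eventually_forall_of_forall_eventually (x₀ := y) isCompact_Icc
          (P := fun (y : S) (s : ℝ) => d (f s (δ x)) (f s y) < r / 2) ?_
        intro s hs
        have h1 : Continuous fun z : S × ℝ => f z.2 z.1 :=
          hV.fcn.comp (Continuous.prodMk continuous_snd continuous_fst)
        have h2 : Continuous fun z : S × ℝ => f z.2 (δ x) :=
          hV.fcn.comp (Continuous.prodMk continuous_snd continuous_const)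
        have h3 : Continuous fun z : S × ℝ => d (f z.2 (δ x)) (f z.2 z.1) :=
          hV.dc.comp (Continuous.prodMk h2 h1)
        exact (isOpen_lt h3 continuous_const).mem_nhds (hy s hs)
      · intro x _
        refine ⟨δ x, fun s _ => ?_⟩
        rw [hV.dz]
        exact half_pos hr
    · intro w hw
      by_contra hcon
      push Not at hcon
      have hins : insert w E ∈ {E : Set X | E ⊆ A ∧ LNT_sep d f T r δ E} := by
        refine ⟨insert_subset hw hEA, ?_⟩
        rintro x (rfl | hx) x' (rfl | hx') hne
        · exact absurd rfl hne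
        · obtain ⟨s, hs, hlt⟩ := hcon x' hx'
          refine ⟨s, hs, ?_⟩
          rw [hV.ds]
          exact hlt
        · exact hcon x hx
        · exact hsep x hx x' hx' hne
      have hwE : w ∈ E := hE.le_of_ge hins (subset_insert w E) (mem_insert w E)
      obtain ⟨s, hs, hlt⟩ := hcon w hwE
      rw [hV.dz] at hlt
      exact lt_asymm hlt hr
  · intro x T r
    have h : BB d f T x r = ⋂ s ∈ Icc (0 : ℝ) T, {y : S | d (f s x) (f s y) ≤ r} := by
      ext y
      simp only [BB, mem_ofPred_eq, mem_iInter]
    rw [h]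
    refine isClosed_biInter fun s _ => ?_
    have h1 : Continuous fun y : S => f s y :=
      hV.fcn.comp (Continuous.prodMk continuous_const continuous_id)
    have h2 : Continuous fun y : S => d (f s x) (f s y) :=
      hV.dc.comp (Continuous.prodMk continuous_const h1)
    exact isClosed_le h2 continuous_const

end

end Pool.Agent.VDL
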