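import Pool.Agent.helper84.VD.SpecB3

/-!
# Row vd:RGA of MP_07c750_an (rigidity on the shell)
-/

set_option autoImplicit false

open scoped ContDiff Topology InnerProductSpace ENNReal
open MeasureTheory Filter Set

namespace Pool.Agent.VD

noncomputable section

/-- one step: the Poincare maps -/
theorem RGA_maps {m : ℕ} {c C e0 e1 : ℝ} {G : V (m + 1) → V (m + 1) →L[ℝ] V (m + 1)}
    {Φ : ℝ → P (m + 1) → P (m + 1)} {D : P (m + 1) → P (m + 1) → ℝ}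
    {κ : P (m + 1) → Z m → P (m + 1)} (hS : SEC c C e0 e1 (Shl G) D Φ κ) {ε t : ℝ}
    {z z' : P (m + 1)} (hz : nrm G z = 1) (hz' : nrm G z' = 1) (h1 : 1 / 2 ≤ t) (h2 : t ≤ 2)
    (hε : ε ≤ e0) (hD : D (Φ t z) z' ≤ ε) :
    ∃ (F : Z m → Z m) (τ : Z m → ℝ), HYP c C e0 F ∧ ‖F 0‖ ≤ C * ε ∧
      ∀ a, ‖a‖ ≤ e0 → Φ (τ a) (κ z a) = κ z' (F a) ∧ |τ a - t| ≤ C * (‖a‖ ^ 2 + ε) ∧
        ‖F a - F 0‖ ≤ C * ‖a‖ := by
  obtain ⟨F, τ, f1, f2, -, f4⟩ := hS.pmap z hz z' hz' t h1 h2 (hD.trans hε)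
  have hC0 : 0 ≤ C := by linarith [hS.C1]
  refine ⟨F, τ, f1, f2.trans (mul_le_mul_of_nonneg_left hD hC0), fun a ha => ?_⟩
  obtain ⟨g1, g2, g3⟩ := f4 a ha
  refine ⟨g1, g2.trans (mul_le_mul_of_nonneg_left (by linarith) hC0), ?_⟩
  have := (g3 0 (by rw [norm_zero]; exact hS.ep.le)).2
  rwa [sub_zero] at this

theorem RGA_proof (hNBD : NBD_stmt) : RGA_stmt := by
  intro m c C e0 e1 hc hC he0 he1
  obtain ⟨eN, μ, K, heN, heN0, hμ, hK, hN⟩ := hNBD m c C e0 hc hC he0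
  have hC0 : 0 < C := by linarith
  have he1' : 0 < e1 := by
    have : 0 < 4 * C * e0 := by positivity
    linarith
  set K1 : ℝ := 3 * K * C with hK1
  have hK1' : 1 ≤ K1 := by nlinarith
  set K2 : ℝ := 2 * C + 1 + C * K1 ^ 2 with hK2
  have hK2' : C ≤ K2 := by
    have : 0 ≤ C * K1 ^ 2 := by positivity
    linarith
  have hK2'' : 1 ≤ K2 := hC.trans hK2'
  refine ⟨min 1 (min (eN / C) (e1 / (4 * C ^ 3))), C * K1 + C * K2, ?_, by nlinarith, ?_⟩
  · refine lt_min one_pos (lt_min (by positivity) (by positivity))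
  intro G Φ D κ hE hS n ε t t' w w' hε0 hε hw hst hw0 hwn
  set e2 : ℝ := min 1 (min (eN / C) (e1 / (4 * C ^ 3))) with he2
  have he2pos : 0 < e2 := lt_min one_pos (lt_min (by positivity) (by positivity))
  have b1 : e2 ≤ 1 := min_le_left _ _
  have b2 : C * e2 ≤ eN := by
    have : e2 ≤ eN / C := (min_le_right _ _).trans (min_le_left _ _)
    rw [le_div_iff₀ hC0] at this
    linarith
  have b3 : 4 * C ^ 3 * e2 ≤ e1 := by
    have : e2 ≤ e1 / (4 * C ^ 3) := (min_le_right _ _).trans (min_le_right _ _)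
    rw [le_div_iff₀ (by positivity)] at this
    linarith
  have hC2 : C ≤ C ^ 2 := by nlinarith
  have hC3 : C ^ 2 ≤ C ^ 3 := by nlinarith [sq_nonneg C]
  have hDnn : ∀ p q, 0 ≤ D p q := fun p q => (hE.d0 p q).1
  have hεe0 : ε ≤ e0 := by nlinarith
  have hε1 : ε ≤ 1 := hε.trans b1
  rcases Nat.eq_zero_or_pos n with hn0 | hnpos
  · subst hn0
    intro i hi
    obtain rfl : i = 0 := Nat.le_zero.1 hi
    refine hw0.trans ?_
    have : 1 ≤ C * K1 + C * K2 := by nlinarith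
    push_cast
    nlinarith
  -- the maps
  have hp : ∀ i, ∃ (F : Z m → Z m) (τ : Z m → ℝ), HYP c C e0 F ∧ (i < n → ‖F 0‖ ≤ C * ε ∧
      ∀ a, ‖a‖ ≤ e0 → Φ (τ a) (κ (w i) a) = κ (w (i + 1)) (F a) ∧
        |τ a - t i| ≤ C * (‖a‖ ^ 2 + ε) ∧ ‖F a - F 0‖ ≤ C * ‖a‖) := by
    intro i
    by_cases hi : i < n
    · obtain ⟨s1, s2, s3, s4, s5⟩ := hst i hi
      obtain ⟨F, τ, f1, f2, f3⟩ := RGA_maps hS (hw i hi.le).1 (hw (i + 1) hi).1 s1 s2 hεe0 s4
      exact ⟨F, τ, f1, fun _ => ⟨f2, f3⟩⟩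
    · obtain ⟨s1, s2, s3, s4, s5⟩ := hst 0 hnpos
      obtain ⟨F, τ, f1, -, -⟩ := RGA_maps hS (hw 0 hnpos.le).1 (hw (0 + 1) hnpos).1 s1 s2 hεe0 s4
      exact ⟨F, τ, f1, fun h => absurd h hi⟩
  choose F τ hF1 hF2 using hp
  have hbx : ∀ i, ∃ (s : ℝ) (b : Z m), i ≤ n → w' i = Φ s (κ (w i) b) ∧
      |s| ≤ C * D (w i) (w' i) ∧ ‖b‖ ≤ C * D (w i) (w' i) := by
    intro i
    by_cases hi : i ≤ n
    · obtain ⟨w1, w2, w3⟩ := hw i hi
      obtain ⟨s, b, g1, g2, g3⟩ := hS.box (w i) w1 (w' i) w2 (w3.trans (by nlinarith))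
      exact ⟨s, b, fun _ => ⟨g1, g2, g3⟩⟩
    · exact ⟨0, 0, fun h => absurd h hi⟩
  choose s b hsb using hbx
  have hbs : ∀ i ≤ n, |s i| ≤ C * e2 ∧ ‖b i‖ ≤ C * e2 := by
    intro i hi
    obtain ⟨g1, g2, g3⟩ := hsb i hi
    have := mul_le_mul_of_nonneg_left (hw i hi).2.2 hC0.le
    exact ⟨g2.trans this, g3.trans this⟩
  -- the step
  have hstep : ∀ i < n, ‖b (i + 1) - F i (b i)‖ ≤ C * ε ∧
      |s (i + 1) - s i| ≤ C * ε + ε + C * (‖b i‖ ^ 2 + ε) := by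
    intro i hi
    obtain ⟨s1, s2, s3, s4, s5⟩ := hst i hi
    obtain ⟨g1, -, -⟩ := hsb i hi.le
    obtain ⟨g1', -, -⟩ := hsb (i + 1) hi
    obtain ⟨u1, u2⟩ := hbs i hi.le
    obtain ⟨u1', u2'⟩ := hbs (i + 1) hi
    obtain ⟨v1, v2⟩ := hF2 i hi
    obtain ⟨v3, v4, v5⟩ := v2 (b i) (by linarith)
    set σ : ℝ := t' i + s i - τ i (b i) with hσ
    have e1' : Φ (t' i) (w' i) = Φ σ (κ (w (i + 1)) (F i (b i))) := by
      rw [g1, ← hE.fa, ← v3, ← hE.fa]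
      congr 1
      rw [hσ]
      ring
    have hbsq : ‖b i‖ ^ 2 ≤ C ^ 2 * e2 := by
      have : ‖b i‖ ^ 2 ≤ (C * e2) ^ 2 := pow_le_pow_left₀ (norm_nonneg _) u2 2
      nlinarith [mul_nonneg (sq_nonneg C) he2pos.le]
    have hσ1 : |σ| ≤ e1 := by
      have h1 : |σ| ≤ |t' i - t i| + |s i| + |τ i (b i) - t i| := by
        rw [hσ, show t' i + s i - τ i (b i) = (t' i - t i) + s i - (τ i (b i) - t i) by ring]
        refine (abs_sub _ _).trans ?_
        linarith [abs_add_le (t' i - t i) (s i)]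
      have h2 : C * (‖b i‖ ^ 2 + ε) ≤ C * (C ^ 2 * e2 + e2) :=
        mul_le_mul_of_nonneg_left (by linarith) hC0.le
      have h3 : e2 + C * e2 + C * (C ^ 2 * e2 + e2) ≤ 4 * C ^ 3 * e2 := by nlinarith
      linarith
    have hFb : ‖F i (b i)‖ ≤ e1 := by
      have h1 : ‖F i (b i)‖ ≤ ‖F i (b i) - F i 0‖ + ‖F i 0‖ := by
        have := norm_add_le (F i (b i) - F i 0) (F i 0)
        rwa [sub_add_cancel] at this
      have h2 : C * ‖b i‖ ≤ C * (C * e2) := mul_le_mul_of_nonneg_left u2 hC0.le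
      nlinarith
    have hs1 : |s (i + 1)| ≤ e1 := by nlinarith
    have hb1 : ‖b (i + 1)‖ ≤ e1 := by nlinarith
    have hin := hS.inj (w (i + 1)) (hw (i + 1) hi).1 (F i (b i)) (b (i + 1)) σ (s (i + 1)) hFb hb1
      hσ1 hs1
    rw [← e1', ← g1'] at hin
    have hin2 : C * D (Φ (t' i) (w' i)) (w' (i + 1)) ≤ C * ε := mul_le_mul_of_nonneg_left s5 hC0.le
    have n1 := norm_nonneg (F i (b i) - b (i + 1))
    have n2 := abs_nonneg (σ - s (i + 1))
    refine ⟨by rw [norm_sub_rev]; linarith, ?_⟩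
    have h1 : |s (i + 1) - s i| ≤ |σ - s (i + 1)| + |t' i - t i| + |τ i (b i) - t i| := by
      rw [show s (i + 1) - s i = -(σ - s (i + 1)) + (t' i - t i) - (τ i (b i) - t i) by
        rw [hσ]; ring]
      refine (abs_sub _ _).trans ?_
      have := abs_add_le (-(σ - s (i + 1))) (t' i - t i)
      rw [abs_neg] at this
      linarith
    linarith
  -- the pseudo-orbits
  have hPb : POrb F n eN (C * ε) b :=
    ⟨fun i hi => (hstep i hi).1, fun i hi => (hbs i hi).2.trans b2⟩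
  have hP0 : POrb F n eN (C * ε) (fun _ => (0 : Z m)) :=
    ⟨fun i hi => by rw [zero_sub, norm_neg]; exact (hF2 i hi).1, fun i _ => by
      rw [norm_zero]; exact heN.le⟩
  have hb0 : ‖(b 0).1‖ ≤ C * ε :=
    (norm_fst_le (b 0)).trans ((hsb 0 (Nat.zero_le n)).2.2.trans
      (mul_le_mul_of_nonneg_left hw0 hC0.le))
  have hbn : ‖(b n).1‖ ≤ C * ε :=
    (norm_fst_le (b n)).trans ((hsb n le_rfl).2.2.trans (mul_le_mul_of_nonneg_left hwn hC0.le))
  have hCε : 0 ≤ C * ε := by positivity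
  have hbk : ∀ k ≤ n, ‖b k‖ ≤ K1 * ε := by
    intro k hk
    have h := hN F n (C * ε) b (fun _ => (0 : Z m)) hF1 hnpos hCε hPb hP0 k hk
    simp only [sub_zero] at h
    have x1 : Real.exp (-(μ * k)) ≤ 1 := by
      rw [Real.exp_le_one_iff]
      have : 0 ≤ μ * k := by positivity
      linarith
    have x2 : Real.exp (-(μ * ((n : ℝ) - k))) ≤ 1 := by
      rw [Real.exp_le_one_iff]
      have hkn : (k : ℝ) ≤ n := by exact_mod_cast hk
      have : 0 ≤ μ * ((n : ℝ) - k) := mul_nonneg hμ.le (by linarith)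
      linarith
    have y1 : Real.exp (-(μ * k)) * ‖(b 0).1‖ ≤ 1 * (C * ε) :=
      mul_le_mul x1 hb0 (norm_nonneg _) zero_le_one
    have y2 : Real.exp (-(μ * ((n : ℝ) - k))) * ‖(b n).1‖ ≤ 1 * (C * ε) :=
      mul_le_mul x2 hbn (norm_nonneg _) zero_le_one
    calc ‖b k‖ ≤ K * (C * ε + Real.exp (-(μ * k)) * ‖(b 0).1‖ +
          Real.exp (-(μ * ((n : ℝ) - k))) * ‖(b n).1‖) := h
      _ ≤ K * (C * ε + 1 * (C * ε) + 1 * (C * ε)) :=
          mul_le_mul_of_nonneg_left (by linarith) (by linarith)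
      _ = K1 * ε := by rw [hK1]; ring
  -- the times
  have hss : ∀ i < n, |s (i + 1) - s i| ≤ K2 * ε := by
    intro i hi
    refine (hstep i hi).2.trans ?_
    have h1 : ‖b i‖ ^ 2 ≤ K1 ^ 2 * ε := by
      have : ‖b i‖ ^ 2 ≤ (K1 * ε) ^ 2 := pow_le_pow_left₀ (norm_nonneg _) (hbk i hi.le) 2
      have h2 : (K1 * ε) ^ 2 ≤ K1 ^ 2 * ε := by
        rw [mul_pow]
        exact mul_le_mul_of_nonneg_left (by nlinarith) (sq_nonneg _)
      linarith
    have h2 : C * (‖b i‖ ^ 2 + ε) ≤ C * (K1 ^ 2 * ε + ε) :=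
      mul_le_mul_of_nonneg_left (by linarith) hC0.le
    calc C * ε + ε + C * (‖b i‖ ^ 2 + ε) ≤ C * ε + ε + C * (K1 ^ 2 * ε + ε) := by linarith
      _ = K2 * ε := by rw [hK2]; ring
  have hsi : ∀ i ≤ n, |s i| ≤ K2 * (i + 1) * ε := by
    intro i
    induction i with
    | zero =>
      intro _
      refine ((hsb 0 (Nat.zero_le n)).2.1.trans
        (mul_le_mul_of_nonneg_left hw0 hC0.le)).trans ?_
      push_cast
      nlinarith
    | succ i ih =>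
      intro hi
      have h1 := ih (by omega)
      have h2 := hss i hi
      have h3 : |s (i + 1)| ≤ |s (i + 1) - s i| + |s i| := by
        have := abs_add_le (s (i + 1) - s i) (s i)
        rwa [sub_add_cancel] at this
      push_cast
      nlinarith
  -- the end
  intro i hi
  have hbe : ‖b i‖ ≤ e1 := by
    have := (hbs i hi).2
    nlinarith
  have m1 : nrm G (κ (w i) (b i)) = 1 := hS.mem (w i) (hw i hi).1 (b i) hbe
  have d1 : D (w i) (κ (w i) (b i)) ≤ C * ‖b i‖ := by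
    have := hS.cmp (w i) (hw i hi).1 0 (b i) (by rw [norm_zero]; exact he1'.le) hbe
    rwa [hS.zero (w i) (hw i hi).1, zero_sub, norm_neg] at this
  have d2 : D (κ (w i) (b i)) (w' i) ≤ C * |s i| := by
    have := hE.gt (κ (w i) (b i)) 0 (s i) (by rw [m1]; norm_num)
    rwa [hE.f0, zero_sub, abs_neg, ← (hsb i hi).1] at this
  have d3 := hE.dt (w i) (κ (w i) (b i)) (w' i)
  have hin : (i : ℝ) ≤ n := by exact_mod_cast hi
  have hn1 : (1 : ℝ) ≤ (n : ℝ) + 1 := by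
    have : (0 : ℝ) ≤ n := Nat.cast_nonneg n
    linarith
  have hK1ε : 0 ≤ K1 * ε := by positivity
  have hK2ε : 0 ≤ K2 * ε := by positivity
  have f1 : ‖b i‖ ≤ K1 * ε * ((n : ℝ) + 1) := (hbk i hi).trans (le_mul_of_one_le_right hK1ε hn1)
  have f2 : |s i| ≤ K2 * ε * ((n : ℝ) + 1) := by
    refine (hsi i hi).trans ?_
    calc K2 * ((i : ℝ) + 1) * ε = K2 * ε * ((i : ℝ) + 1) := by ring
      _ ≤ K2 * ε * ((n : ℝ) + 1) := mul_le_mul_of_nonneg_left (by linarith) hK2ε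
  calc D (w i) (w' i) ≤ C * ‖b i‖ + C * |s i| := by linarith
    _ ≤ C * (K1 * ε * ((n : ℝ) + 1)) + C * (K2 * ε * ((n : ℝ) + 1)) :=
        add_le_add (mul_le_mul_of_nonneg_left f1 hC0.le) (mul_le_mul_of_nonneg_left f2 hC0.le)
    _ = (C * K1 + C * K2) * ((n : ℝ) + 1) * ε := by ring

end

end Pool.Agent.VD
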