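import Pool.Agent.helper84.VD.SpecB3

/-!
# Row vd:RGB of MP_07c750_an (rigidity with energies)
-/

set_option autoImplicit false

open scoped ContDiff Topology InnerProductSpace ENNReal
open MeasureTheory Filter Set

namespace Pool.Agent.VD

noncomputable section

theorem RGB_sc {d : ℕ} (a b : ℝ) (p : P d) : sc a (sc b p) = sc (a * b) p := by
  unfold sc
  rw [smul_smul]

theorem RGB_one {d : ℕ} (p : P d) : sc 1 p = p := by
  unfold sc
  rw [one_smul]

/-- the projection to the shell -/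
def RGB_N {d : ℕ} (G : V d → V d →L[ℝ] V d) (p : P d) : P d := sc (1 / nrm G p) p

section

variable {d : ℕ} {C : ℝ} {G : V d → V d →L[ℝ] V d} {Φ : ℝ → P d → P d} {D : P d → P d → ℝ}

theorem RGB_nN (hE : EFL C G Φ D) {p : P d} (hp : 3 / 4 ≤ nrm G p) : nrm G (RGB_N G p) = 1 := by
  unfold RGB_N
  have h0 : 0 < nrm G p := by linarith
  rw [hE.sn, abs_of_pos (by positivity), one_div, inv_mul_cancel₀ h0.ne']

theorem RGB_back {p : P d} (hp : 3 / 4 ≤ nrm G p) (l : ℝ) : sc (l * nrm G p) (RGB_N G p) = sc l p := by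
  unfold RGB_N
  have h0 : 0 < nrm G p := by linarith
  rw [RGB_sc]
  congr 1
  field_simp

theorem RGB_flow (hE : EFL C G Φ D) {p : P d} (hp : 3 / 4 ≤ nrm G p) :
    Φ (nrm G p) (RGB_N G p) = RGB_N G (Φ 1 p) := by
  unfold RGB_N
  have h0 : 0 < nrm G p := by linarith
  rw [hE.sf, hE.fn, one_div, inv_mul_cancel₀ h0.ne']

/-- `D (sc l p) (sc l' p)` in terms of the norm -/
theorem RGB_s1 (hE : EFL C G Φ D) {p : P d} (hp : nrm G p ≤ 3 / 2) {a b : ℝ} (ha : 3 / 4 ≤ a)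
    (ha' : a ≤ 5 / 4) (hb : 3 / 4 ≤ b) (hb' : b ≤ 5 / 4) : D p (sc (b / a) p) ≤ 4 / 3 * C * |b - a| := by
  have h0 : 0 < a := by linarith
  have h1 : 0 ≤ b / a := div_nonneg (by linarith) h0.le
  have h2 : b / a ≤ 2 := by
    rw [div_le_iff₀ h0]
    linarith
  refine (hE.s1 p (b / a) hp h1 h2).trans ?_
  have h3 : b / a - 1 = (b - a) / a := by
    rw [sub_div, div_self h0.ne']
  have h4 : |b / a - 1| ≤ 4 / 3 * |b - a| := by
    rw [h3, abs_div, abs_of_pos h0, div_le_iff₀ h0]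
    have := abs_nonneg (b - a)
    nlinarith
  have hC0 : 0 ≤ C := by linarith [hE.C1]
  calc C * |b / a - 1| ≤ C * (4 / 3 * |b - a|) := mul_le_mul_of_nonneg_left h4 hC0
    _ = 4 / 3 * C * |b - a| := by ring

theorem RGB_cmp (hE : EFL C G Φ D) {p q : P d} (hp : 3 / 4 ≤ nrm G p) (hp' : nrm G p ≤ 5 / 4)
    (hq : 3 / 4 ≤ nrm G q) (hq' : nrm G q ≤ 5 / 4) : D (RGB_N G p) (RGB_N G q) ≤ 4 * C ^ 2 * D p q := by
  have hC := hE.C1
  have h0 : 0 < nrm G p := by linarith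
  have h1 : 0 < nrm G q := by linarith
  have hD := (hE.d0 p q).1
  have a1 : D (RGB_N G p) (sc (1 / nrm G p) q) ≤ 2 * D p q := by
    refine hE.s2 p q (1 / nrm G p) (by positivity) ?_
    rw [div_le_iff₀ h0]
    linarith
  have a2 : sc (1 / nrm G p) q = sc (nrm G q / nrm G p) (RGB_N G q) := by
    rw [← RGB_back hq (1 / nrm G p)]
    congr 1
    ring
  have a3 : D (RGB_N G q) (sc (nrm G q / nrm G p) (RGB_N G q)) ≤ 4 / 3 * C * |nrm G q - nrm G p| :=
    RGB_s1 hE (by rw [RGB_nN hE hq]; norm_num) hp hp' hq hq'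
  have a4 : |nrm G q - nrm G p| ≤ C * D p q := by
    rw [abs_sub_comm]
    exact hE.nl p q (by linarith) (by linarith)
  have a5 := hE.dt (RGB_N G p) (sc (1 / nrm G p) q) (RGB_N G q)
  have a6 : D (sc (1 / nrm G p) q) (RGB_N G q) ≤ 4 / 3 * C * |nrm G q - nrm G p| := by
    rw [(hE.d0 _ _).2.2, a2]
    exact a3
  have a7 : 4 / 3 * C * |nrm G q - nrm G p| ≤ 4 / 3 * C * (C * D p q) :=
    mul_le_mul_of_nonneg_left a4 (by positivity)
  have a8 : D p q ≤ C ^ 2 * D p q := le_mul_of_one_le_left hD (by nlinarith)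
  have a9 : 4 / 3 * C * (C * D p q) = 4 / 3 * (C ^ 2 * D p q) := by ring
  have a10 : 0 ≤ C ^ 2 * D p q := by positivity
  nlinarith

end

theorem RGB_proof (hRGA : RGA_stmt) : RGB_stmt := by
  intro m c C e0 e1 hc hC he0 he1
  obtain ⟨eA, KA, heA, hKA, hA⟩ := hRGA m c C e0 e1 hc hC he0 he1
  have hC0 : 0 < C := by linarith
  have hC2 : 1 ≤ C ^ 2 := by nlinarith
  have hq : 0 ≤ 4 * C ^ 2 / eA := by positivity
  refine ⟨eA / (4 * C ^ 2), 8 * C ^ 2 * KA + 4 * C ^ 2 + 4 * C ^ 2 / eA, by positivity, ?_, ?_⟩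
  · have : 0 ≤ 8 * C ^ 2 * KA := by positivity
    linarith
  intro G Φ D κ hE hS n r u u' hr hKr hu hst hu0 hun
  have hn1 : (1 : ℝ) ≤ (n : ℝ) + 1 := by
    have : (0 : ℝ) ≤ n := Nat.cast_nonneg n
    linarith
  have hn0 : (0 : ℝ) < (n : ℝ) + 1 := by linarith
  set ε : ℝ := 4 * C ^ 2 * (((n : ℝ) + 1) * r) with hε
  have hnr : 0 ≤ ((n : ℝ) + 1) * r := by positivity
  have hrn : r ≤ ((n : ℝ) + 1) * r := le_mul_of_one_le_left hr hn1
  have hε0 : 0 ≤ ε := by positivity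
  have hεA : ε ≤ eA := by
    have h1 : 4 * C ^ 2 / eA * (((n : ℝ) + 1) * r) ≤ 1 := by
      refine le_trans ?_ hKr
      have h2 : 0 ≤ (8 * C ^ 2 * KA + 4 * C ^ 2) * (((n : ℝ) + 1) * r) := by positivity
      have h3 : (8 * C ^ 2 * KA + 4 * C ^ 2 + 4 * C ^ 2 / eA) * ((n : ℝ) + 1) * r =
        (8 * C ^ 2 * KA + 4 * C ^ 2) * (((n : ℝ) + 1) * r) + 4 * C ^ 2 / eA * (((n : ℝ) + 1) * r) := by
        ring
      rw [h3]
      linarith
    have h4 : 4 * C ^ 2 / eA * (((n : ℝ) + 1) * r) = ε / eA := by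
      rw [hε]
      ring
    rw [h4, div_le_one heA] at h1
    exact h1
  have hrε : 4 * C ^ 2 * r ≤ ε := mul_le_mul_of_nonneg_left hrn (by positivity)
  -- the norms
  have hν : ∀ (v : ℕ → P (m + 1)), (∀ i ≤ n, 3 / 4 ≤ nrm G (v i) ∧ nrm G (v i) ≤ 5 / 4) →
      (∀ i < n, D (Φ 1 (v i)) (v (i + 1)) ≤ r) → ∀ i < n, |nrm G (v (i + 1)) - nrm G (v i)| ≤ C * r := by
    intro v hv hv' i hi
    have h1 := hE.nl (Φ 1 (v i)) (v (i + 1)) (by rw [hE.fn]; linarith [(hv i hi.le).2])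
      (by linarith [(hv (i + 1) hi).2])
    rw [hE.fn, abs_sub_comm] at h1
    exact h1.trans (mul_le_mul_of_nonneg_left (hv' i hi) hC0.le)
  have hν1 := hν u (fun i hi => ⟨(hu i hi).1, (hu i hi).2.1⟩) (fun i hi => (hst i hi).1)
  have hν2 := hν u' (fun i hi => ⟨(hu i hi).2.2.1, (hu i hi).2.2.2.1⟩) (fun i hi => (hst i hi).2)
  have hνd : ∀ i ≤ n, |nrm G (u i) - nrm G (u' i)| ≤ C * r * (2 * i + 1) := by
    intro i
    induction i with
    | zero =>
      intro _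
      obtain ⟨a1, a2, a3, a4, -⟩ := hu 0 (Nat.zero_le n)
      have h1 := hE.nl (u 0) (u' 0) (by linarith) (by linarith)
      refine (h1.trans (mul_le_mul_of_nonneg_left hu0 hC0.le)).trans (le_of_eq ?_)
      push_cast
      ring
    | succ i ih =>
      intro hi
      have h1 := ih (by omega)
      have h2 := hν1 i hi
      have h3 := hν2 i hi
      have h4 : |nrm G (u (i + 1)) - nrm G (u' (i + 1))| ≤
          |nrm G (u (i + 1)) - nrm G (u i)| + |nrm G (u i) - nrm G (u' i)| +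
            |nrm G (u' (i + 1)) - nrm G (u' i)| := by
        rw [show nrm G (u (i + 1)) - nrm G (u' (i + 1)) = (nrm G (u (i + 1)) - nrm G (u i)) +
          (nrm G (u i) - nrm G (u' i)) - (nrm G (u' (i + 1)) - nrm G (u' i)) by ring]
        refine (abs_sub _ _).trans ?_
        linarith [abs_add_le (nrm G (u (i + 1)) - nrm G (u i)) (nrm G (u i) - nrm G (u' i))]
      push_cast
      nlinarith
  have hνε : ∀ i ≤ n, |nrm G (u i) - nrm G (u' i)| ≤ 3 * C * (((n : ℝ) + 1) * r) := by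
    intro i hi
    refine (hνd i hi).trans ?_
    have h1 : (i : ℝ) ≤ n := by exact_mod_cast hi
    have h2 : 2 * (i : ℝ) + 1 ≤ 3 * ((n : ℝ) + 1) := by linarith
    have h3 : 0 ≤ C * r := by positivity
    nlinarith [mul_le_mul_of_nonneg_left h2 h3]
  have h34 : 3 * C * (((n : ℝ) + 1) * r) ≤ ε := by
    rw [hε]
    exact mul_le_mul_of_nonneg_right (by nlinarith) hnr
  have hcmp : ∀ i ≤ n, D (RGB_N G (u i)) (RGB_N G (u' i)) ≤ 4 * C ^ 2 * D (u i) (u' i) := fun i hi =>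
    RGB_cmp hE (hu i hi).1 (hu i hi).2.1 (hu i hi).2.2.1 (hu i hi).2.2.2.1
  have hmain := hA G Φ D κ hE hS n ε (fun i => nrm G (u i)) (fun i => nrm G (u' i))
    (fun i => RGB_N G (u i)) (fun i => RGB_N G (u' i)) hε0 hεA ?_ ?_ ?_ ?_
  · intro i hi
    obtain ⟨a1, a2, a3, a4, -⟩ := hu i hi
    have h1 := hmain i hi
    have h2 : D (u i) (sc (nrm G (u i)) (RGB_N G (u' i))) ≤ 2 * D (RGB_N G (u i)) (RGB_N G (u' i)) := by
      have h3 := hE.s2 (RGB_N G (u i)) (RGB_N G (u' i)) (nrm G (u i)) (by linarith) (by linarith)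
      have h4 : sc (nrm G (u i)) (RGB_N G (u i)) = u i := by
        have := RGB_back (G := G) a1 1
        rwa [one_mul, RGB_one] at this
      rwa [h4] at h3
    have h5 : sc (nrm G (u i)) (RGB_N G (u' i)) = sc (nrm G (u i) / nrm G (u' i)) (u' i) := by
      rw [← RGB_back a3 (nrm G (u i) / nrm G (u' i))]
      congr 1
      have : 0 < nrm G (u' i) := by linarith
      field_simp
    have h6 : D (sc (nrm G (u i)) (RGB_N G (u' i))) (u' i) ≤ 4 / 3 * C * |nrm G (u i) - nrm G (u' i)| := by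
      rw [(hE.d0 _ _).2.2, h5]
      exact RGB_s1 hE (by linarith) a3 a4 a1 a2
    have h7 := hE.dt (u i) (sc (nrm G (u i)) (RGB_N G (u' i))) (u' i)
    have h8 : 4 / 3 * C * |nrm G (u i) - nrm G (u' i)| ≤ 4 / 3 * C * (3 * C * (((n : ℝ) + 1) * r)) :=
      mul_le_mul_of_nonneg_left (hνε i hi) (by positivity)
    have h9 : ((n : ℝ) + 1) * r ≤ ((n : ℝ) + 1) ^ 2 * r := by
      rw [pow_two, mul_assoc]
      exact le_mul_of_one_le_left hnr hn1
    have h10 : 0 ≤ ((n : ℝ) + 1) ^ 2 * r := by positivity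
    calc D (u i) (u' i) ≤ 2 * (KA * ((n : ℝ) + 1) * ε) + 4 / 3 * C * (3 * C * (((n : ℝ) + 1) * r)) := by
          linarith
      _ = 8 * C ^ 2 * KA * (((n : ℝ) + 1) ^ 2 * r) + 4 * C ^ 2 * (((n : ℝ) + 1) * r) := by
          rw [hε]
          ring
      _ ≤ 8 * C ^ 2 * KA * (((n : ℝ) + 1) ^ 2 * r) + 4 * C ^ 2 * (((n : ℝ) + 1) ^ 2 * r) := by
          have := mul_le_mul_of_nonneg_left h9 (show 0 ≤ 4 * C ^ 2 by positivity)
          linarith
      _ ≤ (8 * C ^ 2 * KA + 4 * C ^ 2 + 4 * C ^ 2 / eA) * ((n : ℝ) + 1) ^ 2 * r := by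
          have := mul_nonneg hq h10
          nlinarith
  · intro i hi
    obtain ⟨a1, a2, a3, a4, a5⟩ := hu i hi
    refine ⟨RGB_nN hE a1, RGB_nN hE a3, (hcmp i hi).trans ?_⟩
    have := mul_le_mul_of_nonneg_left a5 (show 0 ≤ 4 * C ^ 2 by positivity)
    rwa [mul_div_cancel₀ _ (show 4 * C ^ 2 ≠ 0 by positivity)] at this
  · intro i hi
    obtain ⟨a1, a2, a3, a4, a5⟩ := hu i hi.le
    obtain ⟨b1, b2, b3, b4, b5⟩ := hu (i + 1) hi
    obtain ⟨s1, s2⟩ := hst i hi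
    refine ⟨by linarith, by linarith, ?_, ?_, ?_⟩
    · rw [abs_sub_comm]
      exact (hνε i hi.le).trans h34
    · simp only [RGB_flow hE a1]
      refine (RGB_cmp hE (by rw [hE.fn]; exact a1) (by rw [hE.fn]; exact a2) b1 b2).trans ?_
      exact (mul_le_mul_of_nonneg_left s1 (by positivity)).trans hrε
    · simp only [RGB_flow hE a3]
      refine (RGB_cmp hE (by rw [hE.fn]; exact a3) (by rw [hE.fn]; exact a4) b3 b4).trans ?_
      exact (mul_le_mul_of_nonneg_left s2 (by positivity)).trans hrε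
  · exact ((hcmp 0 (Nat.zero_le n)).trans
      (mul_le_mul_of_nonneg_left hu0 (by positivity))).trans hrε
  · exact ((hcmp n le_rfl).trans (mul_le_mul_of_nonneg_left hun (by positivity))).trans hrε

end

end Pool.Agent.VD
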