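import Pool.Agent.helper84.VD.SpecB2

/-!
# Row vd:SDT of MP_07c750_an (symplectic maps)
-/

set_option autoImplicit false

open scoped ContDiff Topology InnerProductSpace ENNReal
open MeasureTheory Filter Set

namespace Pool.Agent.VD

noncomputable section

/-- the symplectic form as a bilinear form -/
def SDT_B (m : ℕ) : LinearMap.BilinForm ℝ (Z m) :=
  LinearMap.mk₂ ℝ (fun v w : Z m => omg (d := m) v w)
    (by intro a b c; simp only [omg, Prod.fst_add, Prod.snd_add, inner_add_left, inner_add_right]; ring)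
    (by intro r a b; simp only [omg, Prod.smul_fst, Prod.smul_snd, inner_smul_left, inner_smul_right, smul_eq_mul]
        simp only [conj_trivial]
        ring)
    (by intro a b c; simp only [omg, Prod.fst_add, Prod.snd_add, inner_add_left, inner_add_right]; ring)
    (by intro r a b; simp only [omg, Prod.smul_fst, Prod.smul_snd, inner_smul_left, inner_smul_right, smul_eq_mul]
        simp only [conj_trivial]
        ring)

theorem SDT_self (m : ℕ) (v : Z m) : omg (d := m) v (v.2, -v.1) = ‖v.2‖ ^ 2 + ‖v.1‖ ^ 2 := by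
  simp only [omg, inner_neg_left, real_inner_self_eq_norm_sq]
  ring

theorem SDT_nd (m : ℕ) (v : Z m) (h : ∀ w, omg (d := m) v w = 0) : v = 0 := by
  have h1 := h (v.2, -v.1)
  rw [SDT_self] at h1
  have h2 : ‖v.2‖ ^ 2 = 0 := by nlinarith [sq_nonneg ‖v.2‖, sq_nonneg ‖v.1‖]
  have h3 : ‖v.1‖ ^ 2 = 0 := by nlinarith [sq_nonneg ‖v.2‖, sq_nonneg ‖v.1‖]
  have h4 : v.2 = 0 := norm_eq_zero.1 (pow_eq_zero_iff (two_ne_zero)|>.1 h2)
  have h5 : v.1 = 0 := norm_eq_zero.1 (pow_eq_zero_iff (two_ne_zero)|>.1 h3)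
  exact Prod.ext h5 h4

theorem SDT_det (m : ℕ) (L : Z m →L[ℝ] Z m)
    (hL : ∀ v w : Z m, omg (d := m) (L v) (L w) = omg (d := m) v w) : |L.det| = 1 := by
  let b := Module.finBasis ℝ (Z m)
  let L' : Z m →ₗ[ℝ] Z m := (L : Z m →ₗ[ℝ] Z m)
  have hcomp : (SDT_B m).comp L' L' = SDT_B m := by
    apply LinearMap.ext
    intro v
    apply LinearMap.ext
    intro w
    exact hL v w
  have hnd : (SDT_B m).Nondegenerate := by
    constructor
    · intro v hv
      exact SDT_nd m v hv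
    · intro v hv
      apply SDT_nd m v
      intro w
      have h1 : omg (d := m) w v = 0 := hv w
      have h2 : omg (d := m) v w = -omg (d := m) w v := by
        unfold omg
        ring
      rw [h2, h1, neg_zero]
  have hdet0 : (LinearMap.BilinForm.toMatrix b (SDT_B m)).det ≠ 0 :=
    (LinearMap.BilinForm.nondegenerate_iff_det_ne_zero b).1 hnd
  have hm := LinearMap.BilinForm.toMatrix_comp (b := b) (c := b) (SDT_B m) L' L'
  rw [hcomp] at hm
  have hd := congrArg Matrix.det hm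
  rw [Matrix.det_mul, Matrix.det_mul, Matrix.det_transpose, LinearMap.det_toMatrix] at hd
  have hsq : (LinearMap.det L') ^ 2 = 1 := by
    have h3 : (LinearMap.BilinForm.toMatrix b (SDT_B m)).det * ((LinearMap.det L') ^ 2 - 1) = 0 := by
      linear_combination -hd
    rcases mul_eq_zero.1 h3 with h4 | h4
    · exact absurd h4 hdet0
    · linarith
  have h5 : L.det = LinearMap.det L' := rfl
  rw [h5]
  have h6 : |LinearMap.det L'| ^ 2 = 1 := by rw [sq_abs]; exact hsq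
  exact (pow_eq_one_iff_of_nonneg (abs_nonneg _) (by norm_num)).1 h6

theorem SDT_le (m : ℕ) (v w : Z m) : omg (d := m) v w ≤ 2 * ‖v‖ * ‖w‖ := by
  unfold omg
  have h1 := abs_real_inner_le_norm v.2 w.1
  have h2 := abs_real_inner_le_norm w.2 v.1
  have h3 : ‖v.2‖ * ‖w.1‖ ≤ ‖v‖ * ‖w‖ :=
    mul_le_mul (norm_snd_le v) (norm_fst_le w) (norm_nonneg _) (norm_nonneg _)
  have h4 : ‖w.2‖ * ‖v.1‖ ≤ ‖w‖ * ‖v‖ :=
    mul_le_mul (norm_snd_le w) (norm_fst_le v) (norm_nonneg _) (norm_nonneg _)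
  have h5 := le_abs_self ⟪v.2, w.1⟫_ℝ
  have h6 := neg_abs_le ⟪w.2, v.1⟫_ℝ
  nlinarith

theorem SDT_proof : SDT_stmt := by
  intro m L hL
  refine ⟨SDT_det m L hL, fun v => ?_⟩
  rcases eq_or_ne v 0 with hv | hv
  · subst hv
    simp
  have hpos : 0 < ‖v‖ := norm_pos_iff.2 hv
  have h1 : ‖v‖ ^ 2 ≤ omg (d := m) v (v.2, -v.1) := by
    rw [SDT_self, Prod.norm_def]
    rcases le_total ‖v.1‖ ‖v.2‖ with h | h
    · rw [max_eq_right h]
      nlinarith [sq_nonneg ‖v.1‖]
    · rw [max_eq_left h]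
      nlinarith [sq_nonneg ‖v.2‖]
  have hJ : ‖((v.2, -v.1) : Z m)‖ = ‖v‖ := by
    rw [Prod.norm_def, Prod.norm_def]
    simp only [norm_neg]
    exact max_comm _ _
  have h2 : omg (d := m) v (v.2, -v.1) ≤ 2 * ‖L v‖ * ‖L ((v.2, -v.1) : Z m)‖ := by
    rw [← hL]
    exact SDT_le m _ _
  have h3 : ‖L ((v.2, -v.1) : Z m)‖ ≤ ‖L‖ * ‖v‖ := by
    have := L.le_opNorm ((v.2, -v.1) : Z m)
    rwa [hJ] at this
  have h4 : 2 * ‖L v‖ * ‖L ((v.2, -v.1) : Z m)‖ ≤ 2 * ‖L v‖ * (‖L‖ * ‖v‖) :=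
    mul_le_mul_of_nonneg_left h3 (by positivity)
  have h5 : ‖v‖ * ‖v‖ ≤ (2 * ‖L‖ * ‖L v‖) * ‖v‖ := by nlinarith
  exact le_of_mul_le_mul_right h5 hpos

end

end Pool.Agent.VD
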