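import Pool.Agent.helper62.VD.SpecL2

/-!
# Row vd:ALWT of MP_07c750_an (one beam)
-/

set_option autoImplicit false

open scoped ContDiff Topology InnerProductSpace ComplexConjugate ENNReal
open MeasureTheory Filter Set

namespace Pool.Agent.VD

open Pool.Agent.VQ (CH cmZ)

noncomputable section

theorem ALWT_large (A ζ : ℝ) (hA : 1 ≤ A) (hζ : 0 < ζ) :
    ∃ R0 : ℝ, 1 ≤ R0 ∧ ∀ R : ℝ, R0 ≤ R → A ≤ R ^ ζ := by
  refine ⟨A ^ (1 / ζ), Real.one_le_rpow hA (by positivity), fun R hR => ?_⟩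
  have h0 : (0 : ℝ) ≤ A := by linarith
  calc A = (A ^ (1 / ζ)) ^ ζ := by
        rw [← Real.rpow_mul h0, one_div, inv_mul_cancel₀ hζ.ne', Real.rpow_one]
    _ ≤ R ^ ζ := Real.rpow_le_rpow (Real.rpow_nonneg h0 _) hR hζ.le

/-- absorb constants -/
theorem ALWT_absorb {A R m a x y c : ℝ} (hR : 1 ≤ R) (hA : A ≤ R ^ c) (hm : m = R ^ a)
    (hy : c + (2 * a + x) ≤ y) : A * (m ^ 2 * R ^ x) ≤ R ^ y := by
  have hR0 : 0 < R := by linarith
  have h1 : m ^ 2 * R ^ x = R ^ (2 * a + x) := by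
    rw [hm, Real.rpow_add hR0, ← Real.rpow_natCast, ← Real.rpow_mul hR0.le]
    congr 2
    push_cast
    ring
  rw [h1]
  calc A * R ^ (2 * a + x) ≤ R ^ c * R ^ (2 * a + x) :=
        mul_le_mul_of_nonneg_right hA (Real.rpow_nonneg hR0.le _)
    _ = R ^ (c + (2 * a + x)) := by rw [← Real.rpow_add hR0]
    _ ≤ R ^ y := Real.rpow_le_rpow_of_exponent_le hR hy

theorem ALWT_id {d : ℕ} (Φ : ℝ → P d → P d) (h0 : ∀ p, Φ 0 p = p) (p : P d) (Y0 P0 : MC d) :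
    Yf (Φ 0) p Y0 P0 = Y0 ∧ Pf (Φ 0) p Y0 P0 = P0 := by
  have hid : Φ 0 = fun q : P d => q := funext h0
  have hf : fderiv ℝ (Φ 0) p = ContinuousLinearMap.id ℝ (P d) := by
    rw [hid]
    exact fderiv_fun_id
  have a1 : (Matrix.of fun i j => ((((fderiv ℝ (Φ 0) p (EuclideanSpace.single j 1, 0)).1 i : ℝ)) : ℂ)) = (1 : MC d) := by
    ext i j
    rw [hf]
    simp only [ContinuousLinearMap.id_apply, Matrix.of_apply, PiLp.single_apply,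
      Matrix.one_apply]
    split_ifs <;> simp
  have a2 : (Matrix.of fun i j => ((((fderiv ℝ (Φ 0) p (0, EuclideanSpace.single j 1)).1 i : ℝ)) : ℂ)) = (0 : MC d) := by
    ext i j
    rw [hf]
    simp
  have a3 : (Matrix.of fun i j => ((((fderiv ℝ (Φ 0) p (EuclideanSpace.single j 1, 0)).2 i : ℝ)) : ℂ)) = (0 : MC d) := by
    ext i j
    rw [hf]
    simp
  have a4 : (Matrix.of fun i j => ((((fderiv ℝ (Φ 0) p (0, EuclideanSpace.single j 1)).2 i : ℝ)) : ℂ)) = (1 : MC d) := by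
    ext i j
    rw [hf]
    simp only [ContinuousLinearMap.id_apply, Matrix.of_apply, PiLp.single_apply,
      Matrix.one_apply]
    split_ifs <;> simp
  constructor
  · unfold Yf
    rw [a1, a2, one_mul, zero_mul, add_zero]
  · unfold Pf
    rw [a3, a4, one_mul, zero_mul, zero_add]

theorem ALWT_bt0 {d : ℕ} (G : V d → V d →L[ℝ] V d) (Φ : ℝ → P d → P d) (h0 : ∀ p, Φ 0 p = p)
    (ch : ℝ → ℝ) (ζ2 R : ℝ) (Y0 P0 : MC d) (q : P d) (w : V d) :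
    bt G Φ ch ζ2 R Y0 P0 q 0 w = bm G ch ζ2 R (P0 * Y0⁻¹) q w := by
  obtain ⟨hY, hP⟩ := ALWT_id Φ h0 q Y0 P0
  unfold bt Mt
  rw [hY, hP, h0]
  have ha : amp Φ q Y0 P0 0 = 1 := by
    unfold amp
    rw [intervalIntegral.integral_same, mul_zero, Complex.exp_zero]
  rw [ha]
  simp

theorem ALWT_proof (h1 : ABMP_stmt) (h2 : ABMR_stmt) (h3 : AMVI_stmt) (h4 : ACNF_stmt) (h5 : ALPN_stmt) (h6 : ALEP_stmt) : ALWT_stmt := by
  intro d Γ _ _ K k B r hK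
  obtain ⟨CB, hCB, hB⟩ := h1 d Γ K k B r hK
  obtain ⟨CF, hCF, hF⟩ := h4 d Γ K k B r 1 hK
  obtain ⟨CN, hCN, hN⟩ := h5 d Γ K k B CF
  obtain ⟨CE, hCE, hE⟩ := h6 d Γ K k B r
  have hd0 : (0 : ℝ) ≤ d := Nat.cast_nonneg d
  have hdC : 0 ≤ (d : ℝ) * CB := by positivity
  refine ⟨(d + 8) * CB + 8, by nlinarith, ?_⟩
  intro ch e ζ hch he hζ hCe hCζ
  have hCBe : CB * e ≤ ζ := by nlinarith
  have hdCζ : 0 ≤ (d : ℝ) * CB * ζ := by positivity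
  have hCBζ0 : 0 < CB * ζ := by positivity
  have hexp : ((d + 8) * CB + 8) * ζ = d * CB * ζ + 8 * (CB * ζ) + 8 * ζ := by ring
  have hCBζ : CB * ζ ≤ 1 / 8 := by nlinarith
  have hζ8 : ζ ≤ 1 / 8 := by nlinarith
  obtain ⟨R1, hR1, hB1⟩ := hB ch 2 e ζ ζ ζ 0 hch ⟨he, hζ, le_refl _, hCBe, by linarith⟩ (le_refl _)
    (by linarith)
  obtain ⟨R2, hR2, hL2⟩ := ALWT_large CN ζ hCN hζ
  obtain ⟨R3, hR3, hL3⟩ := ALWT_large CE ζ hCE hζ
  refine ⟨max R1 (max R2 R3), hR1.trans (le_max_left _ _), ?_⟩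
  intro R G Φ g q Y0 P0 hR hO hq hEp hLag
  have r1 : R1 ≤ R := (le_max_left _ _).trans hR
  have r2 : R2 ≤ R := (le_max_left _ _).trans ((le_max_right _ _).trans hR)
  have r3 : R3 ≤ R := (le_max_right _ _).trans ((le_max_right _ _).trans hR)
  have hRone : 1 ≤ R := hR1.trans r1
  have hRpos : 0 < R := by linarith
  have h2top : (2 : WithTop ℕ∞) ≤ ((⊤ : ℕ∞) : WithTop ℕ∞) :=
    WithTop.coe_le_coe.2 (le_top : (2 : ℕ∞) ≤ ⊤)
  obtain ⟨m1, m2, m3, m4, m5, m6, m7, m8, m9⟩ := h3 d Γ K k B G hO.fd hO.cls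
  obtain ⟨q1, q2, q3, q4, q5, q6, q7, q8⟩ :=
    h2 d Γ K k B G Φ (R ^ e) Y0 P0 ch ζ R hO hLag hch hζ hζ8 hRone
  have hHam : Ham G q ≤ 2 := by
    have := (abs_le.1 hEp).2
    unfold Ep at this
    linarith
  have hbase : ∀ s ∈ Icc (0 : ℝ) 1, ‖(Φ s q).1‖ ≤ CF := fun s hs =>
    (hF G Φ hO q s hq hHam (by rw [abs_of_nonneg hs.1]; exact hs.2)).1
  have hPk : ∀ s ∈ Icc (0 : ℝ) 1, Pk 2 (CB * ζ) (R ^ (CB * ζ)) R (Φ s q) (bt G Φ ch ζ R Y0 P0 q s) ∧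
      Pk 2 (CB * ζ) (R ^ (-(1 / 2) + CB * ζ)) R (Φ s q) (Eb G Φ ch ζ R Y0 P0 q s) := by
    intro s hs
    have := hB1 R s G Φ q Y0 P0 r1 hO hq hEp (by rw [abs_of_nonneg hs.1]; exact hs.2) hLag
    exact ⟨this.1, this.2.1⟩
  have hNN : ∀ s ∈ Icc (0 : ℝ) 1, ∀ (m : ℝ) (f : V d → ℂ), 0 ≤ m → Pk 2 (CB * ζ) m R (Φ s q) f →
      (∀ w, ‖f w‖ ≤ m) ∧ FH (⊥ : Subgroup Γ) univ (fun z => f (g⁻¹ • z)) ∧
      ContDiff ℝ ∞ (fun z => f (g⁻¹ • z)) ∧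
      nn G univ (fun z => f (g⁻¹ • z)) ≤ CN * (m ^ 2 * R ^ (-((d : ℝ) / 2) + d * (CB * ζ))) :=
    fun s hs m f hm hf => hN G hO.fd hO.cls 2 (CB * ζ) m R (Φ s q) f g (hbase s hs) hRone hCBζ0
      (by linarith) hm hf
  have hlap : ∀ (s : ℝ) (z : V d), lap G (fun z => bt G Φ ch ζ R Y0 P0 q s (g⁻¹ • z)) z =
      lap G (bt G Φ ch ζ R Y0 P0 q s) (g⁻¹ • z) := fun s z =>
    m9 (bt G Φ ch ζ R Y0 P0 q s) g⁻¹ z ((q1 q s).of_le h2top)
  have hsm : Continuous fun z : V d => g⁻¹ • z := (hO.fd.smooth g⁻¹).continuous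
  have hmap : Continuous fun x : ℝ × V d => (((q, x.1), g⁻¹ • x.2) : (P d × ℝ) × V d) :=
    Continuous.prodMk (Continuous.prodMk continuous_const continuous_fst)
      (hsm.comp continuous_snd)
  refine ⟨?_, ?_, ?_, ?_, ?_, ?_, ?_, ?_⟩
  · intro s hs
    obtain ⟨a1, a2, a3, a4⟩ := hNN s hs _ _ (Real.rpow_nonneg hRpos.le _) (hPk s hs).1
    obtain ⟨b1, b2, b3, b4⟩ := hNN s hs _ _ (Real.rpow_nonneg hRpos.le _) (hPk s hs).2
    refine ⟨a2, a3.of_le h2top, b2, a4.trans ?_, b4.trans ?_⟩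
    · refine ALWT_absorb hRone (hL2 R r2) rfl ?_
      rw [hexp]
      linarith
    · refine ALWT_absorb hRone (hL2 R r2) rfl ?_
      rw [hexp]
      linarith
  · have hPk0 := (hPk 0 ⟨le_refl _, zero_le_one⟩).1
    rw [hO.flow.zero] at hPk0
    have hE0 := hE G hO.fd hO.cls (CB * ζ) (R ^ (CB * ζ)) R q (bt G Φ ch ζ R Y0 P0 q 0) g hq hEp
      hRone hCBζ0 hCBζ (Real.rpow_nonneg hRpos.le _) hPk0
    refine hE0.trans ?_
    refine ALWT_absorb hRone (hL3 R r3) rfl ?_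
    rw [hexp]
    nlinarith
  · exact fun w => ALWT_bt0 G Φ hO.flow.zero ch ζ R Y0 P0 q w
  · have hcomp : IsCompact ((fun z : V d => g • z) '' Metric.closedBall 0 (CF + 1)) :=
      (isCompact_closedBall _ _).image (hO.fd.smooth g).continuous
    obtain ⟨b, hb⟩ := hcomp.isBounded.exists_norm_le
    refine ⟨b, fun s hs z hz => hb z ⟨g⁻¹ • z, ?_, smul_inv_smul g z⟩⟩
    have h7 := q7 q s (g⁻¹ • z) hz
    have h8 : R ^ (-(1 / 2) + ζ) ≤ 1 := Real.rpow_le_one_of_one_le_of_nonpos hRone (by linarith)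
    have h9 := hbase s hs
    have h10 : ‖g⁻¹ • z‖ ≤ ‖g⁻¹ • z - (Φ s q).1‖ + ‖(Φ s q).1‖ := by
      have := norm_add_le (g⁻¹ • z - (Φ s q).1) (Φ s q).1
      rwa [sub_add_cancel] at this
    rw [mem_closedBall_zero_iff]
    linarith
  · have h := q2.comp hmap
    rw [Function.comp_def] at h
    exact h
  · have : (fun x : ℝ × V d => lap G (fun z => bt G Φ ch ζ R Y0 P0 q x.1 (g⁻¹ • z)) x.2) =
        fun x : ℝ × V d => lap G (bt G Φ ch ζ R Y0 P0 q x.1) (g⁻¹ • x.2) :=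
      funext fun x => hlap x.1 x.2
    rw [this]
    have h := q5.comp hmap
    rw [Function.comp_def] at h
    exact h
  · have h := q6.comp hmap
    rw [Function.comp_def] at h
    exact h
  · intro s z
    have h7 := q8 q s (g⁻¹ • z)
    have h8 : Hop G R (fun z => bt G Φ ch ζ R Y0 P0 q s (g⁻¹ • z)) z =
        Hop G R (bt G Φ ch ζ R Y0 P0 q s) (g⁻¹ • z) := by
      unfold Hop
      rw [hlap]
    rw [h8, ← sub_eq_add_neg]
    exact h7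

end

end Pool.Agent.VD
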